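import Pool.Agent.H61.KV.TS

/-!
# Kuiper board KV, module BSI: the base of the cone

It has interior points, and a point of it which is not interior lies on a supporting hyperplane.
-/

open Topology Set
open scoped Pointwise

namespace Pool.Agent.H94.KV.BSI

open Pool.Agent.H61.KV

theorem zero_mem {C : Set (E4 × E5)} (h : IsCC C) : (0 : E5) ∈ Bs C :=
  ⟨0, h.zero⟩

theorem add_mem {C : Set (E4 × E5)} (h : IsCC C) {b b' : E5} (hb : b ∈ Bs C) (hb' : b' ∈ Bs C) :
    b + b' ∈ Bs C := by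
  obtain ⟨a, ha⟩ := hb
  obtain ⟨a', ha'⟩ := hb'
  exact ⟨a + a', h.add _ ha _ ha'⟩

theorem smul_mem {C : Set (E4 × E5)} (h : IsCC C) {b : E5} (hb : b ∈ Bs C) {c : ℝ} (hc : 0 ≤ c) :
    c • b ∈ Bs C := by
  obtain ⟨a, ha⟩ := hb
  exact ⟨c • a, h.smul c hc _ ha⟩

theorem convex_Bs {C : Set (E4 × E5)} (h : IsCC C) : Convex ℝ (Bs C) := by
  intro x hx y hy a b ha hb _
  exact add_mem h (smul_mem h hx ha) (smul_mem h hy hb)

theorem Bs_eq (C : Set (E4 × E5)) : Bs C = (LinearMap.snd ℝ E4 E5) '' C := by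
  ext b
  constructor
  · rintro ⟨a, ha⟩
    exact ⟨(a, b), ha, rfl⟩
  · rintro ⟨⟨a, b'⟩, h, rfl⟩
    exact ⟨a, h⟩

theorem span_Bs {C : Set (E4 × E5)} (h : Submodule.span ℝ C = ⊤) :
    Submodule.span ℝ (Bs C) = ⊤ := by
  rw [Bs_eq, ← Submodule.map_span, h, Submodule.map_top]
  exact LinearMap.range_eq_top.2 LinearMap.snd_surjective

theorem interior_nonempty {C : Set (E4 × E5)} (h : IsCC C) (hs : Submodule.span ℝ C = ⊤) :
    (interior (Bs C)).Nonempty := by
  rw [(convex_Bs h).interior_nonempty_iff_affineSpan_eq_top]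
  have h1 : insert (0 : E5) (Bs C) = Bs C := insert_eq_of_mem (zero_mem h)
  have h2 : ((affineSpan ℝ (insert (0 : E5) (Bs C)) : AffineSubspace ℝ E5) : Set E5)
      = Submodule.span ℝ (Bs C) := affineSpan_insert_zero (k := ℝ) (Bs C)
  rw [h1, span_Bs hs] at h2
  apply SetLike.coe_injective
  rw [h2]
  simp

theorem smul_interior {C : Set (E4 × E5)} (h : IsCC C) {c : ℝ} (hc : 0 < c) {b : E5}
    (hb : b ∈ interior (Bs C)) : c • b ∈ interior (Bs C) := by
  have h1 : c • interior (Bs C) ⊆ interior (Bs C) := by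
    rw [← interior_smul₀ hc.ne']
    apply interior_mono
    rintro _ ⟨x, hx, rfl⟩
    exact smul_mem h hx hc.le
  exact h1 (smul_mem_smul_set hb)

theorem add_interior {C : Set (E4 × E5)} (h : IsCC C) {b b' : E5} (hb : b ∈ Bs C)
    (hb' : b' ∈ interior (Bs C)) : b + b' ∈ interior (Bs C) := by
  have h1 : IsOpen ((fun x => b + x) '' interior (Bs C)) :=
    (isOpenMap_add_left b) _ isOpen_interior
  have h2 : (fun x => b + x) '' interior (Bs C) ⊆ Bs C := by
    rintro _ ⟨x, hx, rfl⟩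
    exact add_mem h hb (interior_subset hx)
  exact interior_maximal h2 h1 ⟨b', hb', rfl⟩

theorem supp {C : Set (E4 × E5)} (h : IsCC C) (hs : Submodule.span ℝ C = ⊤) {b : E5}
    (hb : b ∈ Bs C) (hbi : b ∉ interior (Bs C)) :
    ∃ κ : E5 →ₗ[ℝ] ℝ, κ ≠ 0 ∧ (∀ b' ∈ Bs C, 0 ≤ κ b') ∧ κ b = 0 := by
  obtain ⟨i, hi⟩ := interior_nonempty h hs
  obtain ⟨f, hf⟩ := geometric_hahn_banach_open_point (convex_Bs h).interior isOpen_interior hbi
  -- the weak inequality on the whole base
  have h1 : ∀ x ∈ Bs C, f x ≤ f b := by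
    intro x hx
    have h2 : ∀ d : ℝ, 0 < d → f x + d * f i < f b := by
      intro d hd
      have := hf _ (add_interior h hx (smul_interior h hd hi))
      simpa using this
    have h3 : Filter.Tendsto (fun d : ℝ => f x + d * f i) (𝓝[>] 0) (𝓝 (f x + 0 * f i)) := by
      apply Filter.Tendsto.mono_left _ nhdsWithin_le_nhds
      exact (continuous_const.add (continuous_id.mul continuous_const)).tendsto 0
    rw [zero_mul, add_zero] at h3
    apply le_of_tendsto h3
    filter_upwards [self_mem_nhdsWithin] with d hd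
    exact (h2 d hd).le
  have h4 : 0 ≤ f b := by
    have := h1 0 (zero_mem h)
    simpa using this
  have h5 : f b ≤ 0 := by
    have := h1 _ (smul_mem h hb (by norm_num : (0 : ℝ) ≤ 2))
    rw [map_smul, smul_eq_mul] at this
    linarith
  have h6 : f b = 0 := le_antisymm h5 h4
  refine ⟨-(f : E5 →ₗ[ℝ] ℝ), ?_, ?_, ?_⟩
  · intro h7
    have h8 : f i < f b := hf i hi
    have h9 : (-(f : E5 →ₗ[ℝ] ℝ)) i = 0 := by rw [h7]; rfl
    simp only [LinearMap.neg_apply, ContinuousLinearMap.coe_coe] at h9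
    linarith
  · intro b' hb'
    have := h1 b' hb'
    simp only [LinearMap.neg_apply, ContinuousLinearMap.coe_coe]
    linarith
  · simp only [LinearMap.neg_apply, ContinuousLinearMap.coe_coe]
    linarith

theorem pf_BSI : T_BSI := by
  intro C h hs
  exact ⟨interior_nonempty h hs, (convex_Bs h).interior, fun c hc b hb => smul_interior h hc hb,
    fun b hb b' hb' => add_interior h hb hb', fun b hb hbi => supp h hs hb hbi⟩

end Pool.Agent.H94.KV.BSI
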