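import Pool.Agent.H61.KV.TS

/-!
# Kuiper board KV, module PRM: the projections of the points `-(1/ε) z`

The target `T_PRM` is misparsed (its `ε` is a natural number); this file proves the intended
statement, with real numbers (it is, word for word, `Pool.Agent.H85.KV.IND.PRMr`).
-/

open Topology Set

namespace Pool.Agent.H94.KV.PRM

open Pool.Agent.H61.KV

/-- `T_PRM` with real numbers `ε₀`, `ε` -/
def PRMr : Prop :=
  ∀ (C : Set (E4 × E5)) (P : E4 → E5 → E4), IsCC C → Prj C P → ∀ (Z : Set E4) (K : Set E5),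
    IsCompact Z → (∀ z ∈ Z, Pz C z) → IsCompact K → K ⊆ interior (Bs C) →
    ∃ ε₀ : ℝ, 0 < ε₀ ∧ ∃ M : ℝ, ∀ ε : ℝ, 0 < ε → ε ≤ ε₀ → ∀ z ∈ Z, ∀ b ∈ K,
      ‖P (-((1 / ε) • z)) b‖ ≤ M ∧ Pz C (z + ε • P (-((1 / ε) • z)) b) ∧
      Pool.Agent.H61.KV.Min C (z + ε • P (-((1 / ε) • z)) b) (P (-((1 / ε) • z)) b) b

/-- the variational inequality, multiplied by `ε` -/
theorem vi {C : Set (E4 × E5)} {P : E4 → E5 → E4} (hP : Prj C P) {ε : ℝ} (hε : 0 < ε) (z : E4)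
    {b : E5} (hb : b ∈ interior (Bs C)) {a : E4} (ha : (a, b) ∈ C) :
    0 ≤ inner ℝ (z + ε • P (-((1 / ε) • z)) b) (a - P (-((1 / ε) • z)) b) := by
  have h1 := (hP.1 (-((1 / ε) • z)) b hb).2 a ha
  set A := P (-((1 / ε) • z)) b with hA
  have h2 : z + ε • A = ε • (A - -((1 / ε) • z)) := by
    rw [sub_neg_eq_add, smul_add, smul_smul, mul_one_div_cancel hε.ne', one_smul, add_comm]
  rw [h2, real_inner_smul_left]
  exact mul_nonneg hε.le h1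

theorem mn {C : Set (E4 × E5)} {P : E4 → E5 → E4} (hP : Prj C P) {ε : ℝ} (hε : 0 < ε) (z : E4)
    {b : E5} (hb : b ∈ interior (Bs C)) :
    Pool.Agent.H61.KV.Min C (z + ε • P (-((1 / ε) • z)) b) (P (-((1 / ε) • z)) b) b := by
  refine ⟨(hP.1 _ b hb).1, fun a ha => ?_⟩
  have h1 := vi hP hε z hb ha
  rw [inner_sub_right] at h1
  linarith

/-- the upper bound for `⟪z, A⟫` -/
theorem bd {C : Set (E4 × E5)} {P : E4 → E5 → E4} (hP : Prj C P) {ε : ℝ} (hε : 0 < ε)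
    (hε1 : ε ≤ 1) {z : E4} {b : E5} (hb : b ∈ interior (Bs C)) {N N' : ℝ} (hN : ‖P 0 b‖ ≤ N)
    (hN' : ‖z‖ ≤ N') : inner ℝ z (P (-((1 / ε) • z)) b) ≤ N' * N + N ^ 2 := by
  have h1 := vi hP hε z hb (hP.1 0 b hb).1
  set A := P (-((1 / ε) • z)) b with hA
  set a₁ := P 0 b with ha₁
  rw [inner_sub_right, inner_add_left, inner_add_left, real_inner_smul_left, real_inner_smul_left,
    real_inner_self_eq_norm_sq] at h1
  have h2 : inner ℝ A a₁ ≤ ‖A‖ * ‖a₁‖ := real_inner_le_norm A a₁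
  have h3 : inner ℝ z a₁ ≤ ‖z‖ * ‖a₁‖ := real_inner_le_norm z a₁
  have h0 : 0 ≤ ‖a₁‖ := norm_nonneg _
  have h0A : 0 ≤ ‖A‖ := norm_nonneg _
  have h0z : 0 ≤ ‖z‖ := norm_nonneg _
  have h4 : ‖z‖ * ‖a₁‖ ≤ N' * N := mul_le_mul hN' hN h0 (h0z.trans hN')
  have h5 : ‖a₁‖ ^ 2 ≤ N ^ 2 := pow_le_pow_left₀ h0 hN 2
  have h6 : ‖A‖ * ‖a₁‖ - ‖A‖ ^ 2 ≤ ‖a₁‖ ^ 2 := by
    nlinarith [sq_nonneg (‖A‖ - ‖a₁‖), sq_nonneg (‖A‖), sq_nonneg (‖a₁‖)]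
  have h7 : ε * (inner ℝ A a₁ - ‖A‖ ^ 2) ≤ ‖a₁‖ ^ 2 := by
    have h8 : inner ℝ A a₁ - ‖A‖ ^ 2 ≤ ‖a₁‖ ^ 2 := by linarith
    have h9 : ε * (inner ℝ A a₁ - ‖A‖ ^ 2) ≤ ε * ‖a₁‖ ^ 2 := mul_le_mul_of_nonneg_left h8 hε.le
    have h10 : ε * ‖a₁‖ ^ 2 ≤ 1 * ‖a₁‖ ^ 2 := mul_le_mul_of_nonneg_right hε1 (sq_nonneg _)
    linarith
  have h11 : ε * (inner ℝ A a₁ - ‖A‖ ^ 2) = ε * inner ℝ A a₁ - ε * ‖A‖ ^ 2 := by ring
  rw [h11] at h7
  linarith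

theorem pf_PRM (h1 : T_POS) (h2 : T_BND) : PRMr := by
  intro C P hC hP Z K hZ hZp hK hKi
  obtain ⟨⟨δ, hδ, hδZ⟩, -⟩ : (∃ δ : ℝ, 0 < δ ∧ ∀ z ∈ Z, ∀ z', ‖z' - z‖ ≤ δ → Pz C z') ∧ True := by
    obtain ⟨δ, hδ, h⟩ := (h1 C hC).1 Z hZ hZp
    exact ⟨⟨δ, hδ, h⟩, trivial⟩
  -- bounds for the points `P 0 b`, for `Z` and for `K`
  have hc : ContinuousOn (fun b : E5 => P 0 b) K := by
    have h3 : ContinuousOn (fun b : E5 => ((0 : E4), b)) K :=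
      (continuous_const.prodMk continuous_id).continuousOn
    exact hP.2.comp (g := fun w : E4 × E5 => P w.1 w.2) h3 (fun b hb => ⟨mem_univ _, hKi hb⟩)
  obtain ⟨N, hN⟩ := hK.exists_bound_of_continuousOn hc
  obtain ⟨N', hN'⟩ := hZ.exists_bound_of_continuousOn (f := fun z : E4 => z) continuousOn_id
  obtain ⟨N'', hN''⟩ := hK.exists_bound_of_continuousOn (f := fun b : E5 => b) continuousOn_id
  obtain ⟨M, hM⟩ := h2 C hC Z hZ hZp (max (N' * N + N ^ 2) N'')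
  have hb : ∀ ε : ℝ, 0 < ε → ε ≤ 1 → ∀ z ∈ Z, ∀ b ∈ K, ‖P (-((1 / ε) • z)) b‖ ≤ M := by
    intro ε hε hε1 z hz b hb
    exact hM z hz _ b (hP.1 _ b (hKi hb)).1 ((hN'' b hb).trans (le_max_right _ _))
      ((bd hP hε hε1 (hKi hb) (hN b hb) (hN' z hz)).trans (le_max_left _ _))
  have hM1 : (0 : ℝ) < |M| + 1 := by positivity
  refine ⟨min 1 (δ / (|M| + 1)), lt_min one_pos (div_pos hδ hM1), M, ?_⟩
  intro ε hε hε0 z hz b hbK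
  have hε1 : ε ≤ 1 := hε0.trans (min_le_left _ _)
  have hε2 : ε ≤ δ / (|M| + 1) := hε0.trans (min_le_right _ _)
  have hA := hb ε hε hε1 z hz b hbK
  refine ⟨hA, ?_, mn hP hε z (hKi hbK)⟩
  apply hδZ z hz
  rw [add_sub_cancel_left, norm_smul, Real.norm_eq_abs, abs_of_pos hε]
  have h4 : ε * ‖P (-((1 / ε) • z)) b‖ ≤ ε * (|M| + 1) := by
    apply mul_le_mul_of_nonneg_left _ hε.le
    linarith [le_abs_self M]
  have h5 : ε * (|M| + 1) ≤ δ := by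
    rw [le_div_iff₀ hM1] at hε2
    exact hε2
  linarith

end Pool.Agent.H94.KV.PRM
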